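import Mathlib

/-! Three twisted arcs (copied from the solution of S08036 by the same seat). -/

set_option autoImplicit false

namespace Pool.Agent.Helper425.AV.Base

open Filter Topology

/-- Three twisted arcs in `ℝ³`. -/
noncomputable def P (k : Fin 3) (z : ℝ) : EuclideanSpace ℝ (Fin 3) :=
  match k with
  | 0 => !₂[1 - z ^ 2, z + z ^ 2 / 2, z]
  | 1 => !₂[-z + z ^ 2 / 2, 1 - z ^ 2, z]
  | 2 => !₂[z + z ^ 2 / 2, -z + z ^ 2 / 2, z]

/-- A linear functional with given coefficients. -/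
noncomputable def lin (a b c : ℝ) : EuclideanSpace ℝ (Fin 3) →ₗ[ℝ] ℝ where
  toFun v := a * v 0 + b * v 1 + c * v 2
  map_add' v w := by
    simp only [PiLp.add_apply]
    ring
  map_smul' r v := by
    simp only [PiLp.smul_apply, smul_eq_mul, RingHom.id_apply]
    ring

theorem lin_apply (a b c : ℝ) (v : EuclideanSpace ℝ (Fin 3)) :
    lin a b c v = a * v 0 + b * v 1 + c * v 2 := rfl

/-- The functional exposing the pair `P k s`, `P (k+1) t`. -/
noncomputable def F (k : Fin 3) (s t : ℝ) : EuclideanSpace ℝ (Fin 3) →ₗ[ℝ] ℝ :=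
  match k with
  | 0 => lin (1 + s + 2 * t) (-1 + t + 2 * s) (1 + s - t + 3 * s * t)
  | 1 => lin (1 - t - 2 * s) (2 - s + t) (1 + s - t + 3 * s * t)
  | 2 => lin (-2 + s - t) (-(1 + s + 2 * t)) (1 + s - t + 3 * s * t)

theorem F_same (k : Fin 3) (s t z : ℝ) :
    F k s t (P k z) = F k s t (P k s) - 3 / 2 * (1 + t) * (z - s) ^ 2 := by
  fin_cases k <;> simp [F, P, lin_apply] <;> ring

theorem F_next (k : Fin 3) (s t z : ℝ) :
    F k s t (P (k + 1) z) = F k s t (P (k + 1) t) + 3 / 2 * (1 - s) * (z - t) ^ 2 := by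
  fin_cases k <;> simp [F, P, lin_apply] <;> ring

theorem F_lt1 (k : Fin 3) {s t z : ℝ} (hs0 : 0 ≤ s) (hs : s ≤ 1 / 20) (ht0 : 0 ≤ t)
    (ht : t ≤ 1 / 20) (hz0 : 0 ≤ z) (hz : z ≤ 1 / 20) :
    F k s t (P (k + 2) z) < F k s t (P k s) := by
  have h1 : 0 ≤ s * t := mul_nonneg hs0 ht0
  have h2 : 0 ≤ s * z := mul_nonneg hs0 hz0
  have h3 : 0 ≤ t * z := mul_nonneg ht0 hz0
  fin_cases k <;> simp [F, P, lin_apply] <;> nlinarith [mul_nonneg h1 hs0, mul_nonneg h1 ht0, mul_nonneg h1 hz0, mul_nonneg h2 hs0, mul_nonneg h2 hz0, mul_nonneg h3 ht0, mul_nonneg h3 hz0, mul_nonneg hs0 hs0]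

theorem F_lt2 (k : Fin 3) {s t z : ℝ} (hs0 : 0 ≤ s) (hs : s ≤ 1 / 20) (ht0 : 0 ≤ t)
    (ht : t ≤ 1 / 20) (hz0 : 0 ≤ z) :
    F k s t (P (k + 1) t) < F k s t (P (k + 2) z) := by
  have h1 : 0 ≤ s * t := mul_nonneg hs0 ht0
  have h2 : 0 ≤ s * z := mul_nonneg hs0 hz0
  have h3 : 0 ≤ t * z := mul_nonneg ht0 hz0
  fin_cases k <;> simp [F, P, lin_apply] <;> nlinarith [mul_nonneg h1 hs0, mul_nonneg h1 ht0, mul_nonneg h1 hz0, mul_nonneg h2 hs0, mul_nonneg h2 hz0, mul_nonneg h3 ht0, mul_nonneg h3 hz0, mul_nonneg hs0 hs0]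

theorem F_val (k : Fin 3) {s t : ℝ} (hs0 : 0 ≤ s) (hs : s ≤ 1 / 20) (ht0 : 0 ≤ t) :
    F k s t (P (k + 1) t) + 1 < F k s t (P k s) := by
  have h1 : 0 ≤ s * t := mul_nonneg hs0 ht0
  fin_cases k <;> simp [F, P, lin_apply] <;> nlinarith [mul_nonneg h1 hs0, mul_nonneg h1 ht0, mul_nonneg hs0 hs0]

theorem fin3_cases (k l : Fin 3) : l = k ∨ l = k + 1 ∨ l = k + 2 := by
  revert k l; decide

theorem sq_small {z t : ℝ} (ht0 : 0 ≤ t) (ht : t ≤ 1 / 20) (hz0 : 0 ≤ z) (hz : z ≤ 1 / 20) :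
    (z - t) ^ 2 ≤ 1 / 400 := by
  nlinarith

/-- `F k s t` is maximised only at `P k s`. -/
theorem F_lt_max (k l : Fin 3) {s t z : ℝ} (hs0 : 0 ≤ s) (hs : s ≤ 1 / 20) (ht0 : 0 ≤ t)
    (ht : t ≤ 1 / 20) (hz0 : 0 ≤ z) (hz : z ≤ 1 / 20) (hne : P l z ≠ P k s) :
    F k s t (P l z) < F k s t (P k s) := by
  rcases fin3_cases k l with rfl | rfl | rfl
  · rw [F_same l s t z]
    have hzs : z - s ≠ 0 := by
      intro h
      apply hne
      rw [sub_eq_zero.mp h]
    have : 0 < (z - s) ^ 2 := by positivity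
    nlinarith [mul_pos (by linarith : (0 : ℝ) < 1 + t) this]
  · rw [F_next k s t z]
    have h3 := sq_small ht0 ht hz0 hz
    have h4 := F_val k hs0 hs ht0
    nlinarith [mul_nonneg hs0 (sq_nonneg (z - t))]
  · exact F_lt1 k hs0 hs ht0 ht hz0 hz

theorem F_le_max (k l : Fin 3) {s t z : ℝ} (hs0 : 0 ≤ s) (hs : s ≤ 1 / 20) (ht0 : 0 ≤ t)
    (ht : t ≤ 1 / 20) (hz0 : 0 ≤ z) (hz : z ≤ 1 / 20) :
    F k s t (P l z) ≤ F k s t (P k s) := by
  by_cases h : P l z = P k s
  · rw [h]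
  · exact (F_lt_max k l hs0 hs ht0 ht hz0 hz h).le

theorem F_min_le (k l : Fin 3) {s t z : ℝ} (hs0 : 0 ≤ s) (hs : s ≤ 1 / 20) (ht0 : 0 ≤ t)
    (ht : t ≤ 1 / 20) (hz0 : 0 ≤ z) (hz : z ≤ 1 / 20) :
    F k s t (P (k + 1) t) ≤ F k s t (P l z) := by
  rcases fin3_cases k l with rfl | rfl | rfl
  · rw [F_same l s t z]
    have h3 := sq_small hs0 hs hz0 hz
    have h4 := F_val l hs0 hs ht0
    nlinarith [sq_nonneg (z - s)]
  · rw [F_next k s t z]
    nlinarith [mul_nonneg (by linarith : (0 : ℝ) ≤ 1 - s) (sq_nonneg (z - t))]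
  · exact (F_lt2 k hs0 hs ht0 ht hz0).le

theorem P_two (k : Fin 3) (z : ℝ) : P k z 2 = z := by
  fin_cases k <;> simp [P]

theorem P_inj {k l : Fin 3} {z w : ℝ} (hz0 : 0 ≤ z) (hz : z ≤ 1 / 20) (hw0 : 0 ≤ w)
    (hw : w ≤ 1 / 20) (h : P k z = P l w) : k = l ∧ z = w := by
  have hzw : z = w := by
    have := congrArg (fun v : EuclideanSpace ℝ (Fin 3) => v 2) h
    simpa [P_two] using this
  subst hzw
  refine ⟨?_, rfl⟩
  have h0 : P k z 0 = P l z 0 := by rw [h]
  have h1 : P k z 1 = P l z 1 := by rw [h]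
  have hzz : z ^ 2 ≤ 1 / 400 := by nlinarith
  fin_cases k <;> fin_cases l <;> first | rfl | (exfalso; simp [P] at h0 h1; nlinarith)

/-- The parameters of the points on each arc. -/
noncomputable def par (m : ℕ) (i : Fin m) : ℝ := (i : ℝ) / (20 * m)

theorem par_nonneg (m : ℕ) (i : Fin m) : 0 ≤ par m i := by
  unfold par; positivity

theorem par_le (m : ℕ) (i : Fin m) : par m i ≤ 1 / 20 := by
  unfold par
  have hm : (0 : ℝ) < m := by exact_mod_cast (lt_of_le_of_lt (Nat.zero_le _) i.isLt)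
  have hi : (i : ℝ) ≤ m := by exact_mod_cast i.isLt.le
  rw [div_le_div_iff₀ (by positivity) (by norm_num)]
  nlinarith

theorem par_inj (m : ℕ) : Function.Injective (par m) := by
  intro i j h
  unfold par at h
  have hm : (0 : ℝ) < m := by exact_mod_cast (lt_of_le_of_lt (Nat.zero_le _) i.isLt)
  have h2 : ((i : ℕ) : ℝ) = ((j : ℕ) : ℝ) := by
    field_simp at h
    exact h
  exact Fin.ext (by exact_mod_cast h2)

/-- The points. -/
noncomputable def pt (m : ℕ) (x : Fin 3 × Fin m) : EuclideanSpace ℝ (Fin 3) := P x.1 (par m x.2)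

theorem pt_inj (m : ℕ) : Function.Injective (pt m) := by
  rintro ⟨k, i⟩ ⟨l, j⟩ h
  obtain ⟨h1, h2⟩ := P_inj (par_nonneg m i) (par_le m i) (par_nonneg m j) (par_le m j) h
  exact Prod.ext h1 (par_inj m h2)

/-- The vertex set. -/
noncomputable def S (m : ℕ) : Finset (EuclideanSpace ℝ (Fin 3)) :=
  Finset.univ.map ⟨pt m, pt_inj m⟩

theorem mem_S {m : ℕ} {v : EuclideanSpace ℝ (Fin 3)} :
    v ∈ S m ↔ ∃ x : Fin 3 × Fin m, pt m x = v := by
  simp [S]

theorem card_S (m : ℕ) : (S m).card = 3 * m := by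
  simp [S]

/-- A strictly exposed point of a finite set is an extreme point of its convex hull. -/
theorem extreme_of_strict {d : ℕ} {T : Finset (EuclideanSpace ℝ (Fin d))}
    (f : EuclideanSpace ℝ (Fin d) →ₗ[ℝ] ℝ) {x : EuclideanSpace ℝ (Fin d)} (hx : x ∈ T)
    (h : ∀ y ∈ T, y ≠ x → f y < f x) :
    x ∈ Set.extremePoints ℝ (convexHull ℝ (T : Set (EuclideanSpace ℝ (Fin d)))) := by
  have hsub : convexHull ℝ (T : Set (EuclideanSpace ℝ (Fin d))) ⊆ {y | y = x ∨ f y < f x} := by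
    refine convexHull_min ?_ ?_
    · intro y hy
      by_cases hyx : y = x
      · exact Or.inl hyx
      · exact Or.inr (h y hy hyx)
    · intro y hy z hz a b ha hb hab
      have hb' : b = 1 - a := by linarith
      subst hb'
      by_cases ha0 : a = 0
      · subst ha0
        simpa using hz
      by_cases ha1 : a = 1
      · subst ha1
        simpa using hy
      have ha2 : 0 < a := lt_of_le_of_ne ha (Ne.symm ha0)
      have ha3 : 0 < 1 - a := by
        rcases lt_or_eq_of_le hb with h1 | h1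
        · exact h1
        · exact absurd (by linarith) ha1
      rcases hy with hy | hy <;> rcases hz with hz | hz
      · left
        rw [hy, hz, ← add_smul]
        simp
      · right
        rw [map_add, map_smul, map_smul, hy, smul_eq_mul, smul_eq_mul]
        nlinarith
      · right
        rw [map_add, map_smul, map_smul, hz, smul_eq_mul, smul_eq_mul]
        nlinarith
      · right
        rw [map_add, map_smul, map_smul, smul_eq_mul, smul_eq_mul]
        nlinarith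
  rw [mem_extremePoints]
  refine ⟨subset_convexHull ℝ _ hx, ?_⟩
  intro y hy z hz hyz
  obtain ⟨a, b, ha, hb, hab, hx2⟩ := hyz
  have hb' : b = 1 - a := by linarith
  subst hb'
  have hfx : f x = a * f y + (1 - a) * f z := by
    rw [← hx2, map_add, map_smul, map_smul, smul_eq_mul, smul_eq_mul]
  rcases hsub hy with h1 | h1 <;> rcases hsub hz with h2 | h2
  · exact ⟨h1, h2⟩
  · exfalso
    rw [h1] at hfx
    nlinarith
  · exfalso
    rw [h2] at hfx
    nlinarith
  · exfalso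
    nlinarith

theorem S_extreme (m : ℕ) : ∀ x ∈ S m, x ∈ Set.extremePoints ℝ
    (convexHull ℝ (S m : Set (EuclideanSpace ℝ (Fin 3)))) := by
  intro x hx
  obtain ⟨⟨k, i⟩, rfl⟩ := mem_S.mp hx
  refine extreme_of_strict (F k (par m i) 0) hx ?_
  intro y hy hyx
  obtain ⟨⟨l, j⟩, rfl⟩ := mem_S.mp hy
  exact F_lt_max k l (par_nonneg m i) (par_le m i) le_rfl (by norm_num) (par_nonneg m j)
    (par_le m j) hyx

/-- The set of ordered antipodal pairs. -/
def pairs (T : Finset (EuclideanSpace ℝ (Fin 3))) :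
    Set (EuclideanSpace ℝ (Fin 3) × EuclideanSpace ℝ (Fin 3)) :=
  {p | p.1 ∈ T ∧ p.2 ∈ T ∧ p.1 ≠ p.2 ∧
    ∃ f : EuclideanSpace ℝ (Fin 3) →ₗ[ℝ] ℝ,
      f p.2 < f p.1 ∧ ∀ z ∈ T, f p.2 ≤ f z ∧ f z ≤ f p.1}

theorem pairs_subset (T : Finset (EuclideanSpace ℝ (Fin 3))) :
    pairs T ⊆ ((T ×ˢ T : Finset _) : Set (EuclideanSpace ℝ (Fin 3) × EuclideanSpace ℝ (Fin 3))) := by
  rintro ⟨a, b⟩ ⟨h1, h2, _⟩
  simp only [Finset.coe_product, Set.mem_prod, Finset.mem_coe]
  exact ⟨h1, h2⟩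

theorem pair_mem {m : ℕ} (x y : Fin 3 × Fin m) (hxy : x.1 ≠ y.1) :
    (pt m x, pt m y) ∈ pairs (S m) := by
  have hx : pt m x ∈ S m := mem_S.mpr ⟨x, rfl⟩
  have hy : pt m y ∈ S m := mem_S.mpr ⟨y, rfl⟩
  have hne : pt m x ≠ pt m y := fun h => hxy (by rw [pt_inj m h])
  refine ⟨hx, hy, hne, ?_⟩
  obtain ⟨k, i⟩ := x
  obtain ⟨l, j⟩ := y
  simp only at hxy
  have hi0 := par_nonneg m i
  have hi := par_le m i
  have hj0 := par_nonneg m j
  have hj := par_le m j
  rcases fin3_cases k l with h | h | h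
  · exact absurd h.symm hxy
  · subst h
    refine ⟨F k (par m i) (par m j), ?_, ?_⟩
    · have := F_val k hi0 hi hj0
      show F k (par m i) (par m j) (P (k + 1) (par m j)) < F k (par m i) (par m j) (P k (par m i))
      linarith
    · intro z hz
      obtain ⟨⟨n, r⟩, rfl⟩ := mem_S.mp hz
      exact ⟨F_min_le k n hi0 hi hj0 hj (par_nonneg m r) (par_le m r),
        F_le_max k n hi0 hi hj0 hj (par_nonneg m r) (par_le m r)⟩
  · have hkl : ∀ k l : Fin 3, l = k + 2 → k = l + 1 := by decide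
    have hk : k = l + 1 := hkl k l h
    subst hk
    refine ⟨-F l (par m j) (par m i), ?_, ?_⟩
    · have := F_val l hj0 hj hi0
      show -F l (par m j) (par m i) (P l (par m j)) <
        -F l (par m j) (par m i) (P (l + 1) (par m i))
      linarith
    · intro z hz
      obtain ⟨⟨n, r⟩, rfl⟩ := mem_S.mp hz
      have h1 := F_min_le l n hj0 hj hi0 hi (par_nonneg m r) (par_le m r)
      have h2 := F_le_max l n hj0 hj hi0 hi (par_nonneg m r) (par_le m r)
      refine ⟨?_, ?_⟩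
      · show -F l (par m j) (par m i) (P l (par m j)) ≤ -F l (par m j) (par m i) (P n (par m r))
        linarith
      · show -F l (par m j) (par m i) (P n (par m r)) ≤
          -F l (par m j) (par m i) (P (l + 1) (par m i))
        linarith

theorem card_pairs (m : ℕ) : 6 * m ^ 2 ≤ (pairs (S m)).ncard := by
  classical
  set G : Finset ((Fin 3 × Fin m) × (Fin 3 × Fin m)) :=
    Finset.univ.filter (fun x => x.1.1 ≠ x.2.1) with hG
  have hGcard : 6 * m ^ 2 ≤ G.card := by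
    have h1 : G.card = 9 * m ^ 2 - 3 * m ^ 2 := by
      have h2 : G = Finset.univ \ (Finset.univ.filter
          (fun x : (Fin 3 × Fin m) × (Fin 3 × Fin m) => x.1.1 = x.2.1)) := by
        ext x
        simp [hG]
      rw [h2, Finset.card_sdiff_of_subset (Finset.filter_subset _ _)]
      congr 1
      · simp; ring
      · have h3 : (Finset.univ.filter
            (fun x : (Fin 3 × Fin m) × (Fin 3 × Fin m) => x.1.1 = x.2.1)) =
            (Finset.univ : Finset (Fin 3 × (Fin m × Fin m))).map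
              ⟨fun x => ((x.1, x.2.1), (x.1, x.2.2)), by
                rintro ⟨a, b, c⟩ ⟨a', b', c'⟩ h
                simp at h
                obtain ⟨⟨h1, h2⟩, _, h3⟩ := h
                rw [h1, h2, h3]⟩ := by
          ext ⟨⟨a, b⟩, ⟨c, d⟩⟩
          simp only [Finset.mem_filter, Finset.mem_univ, true_and, Finset.mem_map]
          constructor
          · intro h
            have h' : a = c := h
            subst h'
            exact ⟨(a, b, d), rfl⟩
          · rintro ⟨⟨a', b', c'⟩, h⟩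
            have h4 : ((a', b'), (a', c')) = ((a, b), (c, d)) := h
            simp only [Prod.mk.injEq] at h4
            obtain ⟨⟨h5, _⟩, h6, _⟩ := h4
            exact h5.symm.trans h6
        rw [h3]
        simp; ring
    omega
  have hsub : ((G.map ⟨fun x => (pt m x.1, pt m x.2), by
      rintro ⟨a, b⟩ ⟨c, d⟩ h
      simp only [Prod.mk.injEq] at h
      rw [pt_inj m h.1, pt_inj m h.2]⟩ : Finset _) :
        Set (EuclideanSpace ℝ (Fin 3) × EuclideanSpace ℝ (Fin 3))) ⊆ pairs (S m) := by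
    intro p hp
    simp only [Finset.coe_map, Set.mem_image, Finset.mem_coe] at hp
    obtain ⟨⟨x, y⟩, hxy, rfl⟩ := hp
    refine pair_mem x y ?_
    simpa [hG] using hxy
  have hfin : (pairs (S m)).Finite := (Finset.finite_toSet _).subset (pairs_subset _)
  have := Set.ncard_le_ncard hsub hfin
  rw [Set.ncard_coe_finset, Finset.card_map] at this
  exact hGcard.trans this

theorem affineSpan_S {m : ℕ} (hm : 2 ≤ m) :
    affineSpan ℝ (S m : Set (EuclideanSpace ℝ (Fin 3))) = ⊤ := by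
  have h0m : 0 < m := by omega
  have h1m : 1 < m := by omega
  have hA : P 0 0 ∈ affineSpan ℝ (S m : Set (EuclideanSpace ℝ (Fin 3))) := by
    refine subset_affineSpan ℝ _ (mem_S.mpr ⟨(0, ⟨0, h0m⟩), ?_⟩)
    simp [pt, par]
  have hB : P 1 0 ∈ affineSpan ℝ (S m : Set (EuclideanSpace ℝ (Fin 3))) := by
    refine subset_affineSpan ℝ _ (mem_S.mpr ⟨(1, ⟨0, h0m⟩), ?_⟩)
    simp [pt, par]
  have hC : P 2 0 ∈ affineSpan ℝ (S m : Set (EuclideanSpace ℝ (Fin 3))) := by
    refine subset_affineSpan ℝ _ (mem_S.mpr ⟨(2, ⟨0, h0m⟩), ?_⟩)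
    simp [pt, par]
  set w : ℝ := par m ⟨1, h1m⟩ with hw
  have hwpos : 0 < w := by
    rw [hw]
    unfold par
    have : (0 : ℝ) < m := by exact_mod_cast h0m
    simp only [Nat.cast_one]
    positivity
  have hD : P 2 w ∈ affineSpan ℝ (S m : Set (EuclideanSpace ℝ (Fin 3))) :=
    subset_affineSpan ℝ _ (mem_S.mpr ⟨(2, ⟨1, h1m⟩), rfl⟩)
  set W := affineSpan ℝ (S m : Set (EuclideanSpace ℝ (Fin 3))) with hW
  have dA := AffineSubspace.vsub_mem_direction hA hC
  have dB := AffineSubspace.vsub_mem_direction hB hC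
  have dD := AffineSubspace.vsub_mem_direction hD hC
  rw [eq_top_iff]
  intro v _
  have hv : v = ((v 0 - v 2 / w * (w + w ^ 2 / 2)) • (P 0 0 -ᵥ P 2 0) +
      (v 1 - v 2 / w * (-w + w ^ 2 / 2)) • (P 1 0 -ᵥ P 2 0) + (v 2 / w) • (P 2 w -ᵥ P 2 0)) +ᵥ
        P 2 0 := by
    ext i
    fin_cases i
    · simp [P]
    · simp [P]
    · simp [P]
      field_simp
  rw [hv]
  refine AffineSubspace.vadd_mem_of_mem_direction ?_ hC
  exact W.direction.add_mem (W.direction.add_mem (W.direction.smul_mem _ dA)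
    (W.direction.smul_mem _ dB)) (W.direction.smul_mem _ dD)


theorem S_expose (m : ℕ) : ∀ x ∈ S m, ∃ f : EuclideanSpace ℝ (Fin 3) →ₗ[ℝ] ℝ,
    ∀ y ∈ S m, y ≠ x → f y < f x := by
  intro x hx
  obtain ⟨⟨k, i⟩, rfl⟩ := mem_S.mp hx
  refine ⟨F k (par m i) 0, ?_⟩
  intro y hy hyx
  obtain ⟨⟨l, j⟩, rfl⟩ := mem_S.mp hy
  exact F_lt_max k l (par_nonneg m i) (par_le m i) le_rfl (by norm_num) (par_nonneg m j)
    (par_le m j) hyx

end Pool.Agent.Helper425.AV.Base
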