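import Mathlib

set_option autoImplicit false

namespace Pool.Agent.Helper425.AV

/-- ordered antipodal pairs of a finite point set -/
def pairs (d : ℕ) (T : Finset (EuclideanSpace ℝ (Fin d))) :
    Set (EuclideanSpace ℝ (Fin d) × EuclideanSpace ℝ (Fin d)) :=
  {p | p.1 ∈ T ∧ p.2 ∈ T ∧ p.1 ≠ p.2 ∧
    ∃ f : EuclideanSpace ℝ (Fin d) →ₗ[ℝ] ℝ,
      f p.2 < f p.1 ∧ ∀ z ∈ T, f p.2 ≤ f z ∧ f z ≤ f p.1}

/-- put a point of `ℝ^d` at height `c` -/
noncomputable def lift (d : ℕ) (c : ℝ) (v : EuclideanSpace ℝ (Fin d)) :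
    EuclideanSpace ℝ (Fin (d + 1)) :=
  WithLp.toLp 2 (Fin.snoc (α := fun _ => ℝ) (fun i => v i) c)

@[simp] lemma lift_castSucc (d : ℕ) (c : ℝ) (v : EuclideanSpace ℝ (Fin d)) (i : Fin d) :
    lift d c v (Fin.castSucc i) = v i := by
  simp [lift]

@[simp] lemma lift_last (d : ℕ) (c : ℝ) (v : EuclideanSpace ℝ (Fin d)) :
    lift d c v (Fin.last d) = c := by
  simp [lift]

/-- the projection forgetting the height -/
noncomputable def proj (d : ℕ) : EuclideanSpace ℝ (Fin (d + 1)) →ₗ[ℝ] EuclideanSpace ℝ (Fin d) where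
  toFun w := WithLp.toLp 2 (fun i => w (Fin.castSucc i))
  map_add' v w := by ext i; simp
  map_smul' r v := by ext i; simp

@[simp] lemma proj_lift (d : ℕ) (c : ℝ) (v : EuclideanSpace ℝ (Fin d)) :
    proj d (lift d c v) = v := by
  ext i; simp [proj]

/-- lift of a functional -/
noncomputable def fl (d : ℕ) (f : EuclideanSpace ℝ (Fin d) →ₗ[ℝ] ℝ) (a : ℝ) :
    EuclideanSpace ℝ (Fin (d + 1)) →ₗ[ℝ] ℝ where
  toFun w := f (proj d w) + a * w (Fin.last d)
  map_add' v w := by simp; ring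
  map_smul' r v := by simp; ring

@[simp] lemma fl_lift (d : ℕ) (f : EuclideanSpace ℝ (Fin d) →ₗ[ℝ] ℝ) (a c : ℝ)
    (v : EuclideanSpace ℝ (Fin d)) : fl d f a (lift d c v) = f v + a * c := by
  simp [fl]

lemma lift_inj {d : ℕ} {a b : ℝ} {v w : EuclideanSpace ℝ (Fin d)} (h : lift d a v = lift d b w) :
    a = b ∧ v = w := by
  constructor
  · have := congrArg (fun x : EuclideanSpace ℝ (Fin (d + 1)) => x (Fin.last d)) h
    simpa using this
  · have := congrArg (proj d) h
    simpa using this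

open Classical in
/-- the prism over `S` -/
noncomputable def prism (d : ℕ) (S : Finset (EuclideanSpace ℝ (Fin d))) :
    Finset (EuclideanSpace ℝ (Fin (d + 1))) :=
  S.image (lift d 0) ∪ S.image (lift d 1)

lemma mem_prism {d : ℕ} {S : Finset (EuclideanSpace ℝ (Fin d))}
    {w : EuclideanSpace ℝ (Fin (d + 1))} :
    w ∈ prism d S ↔ (∃ v ∈ S, lift d 0 v = w) ∨ (∃ v ∈ S, lift d 1 v = w) := by
  classical
  simp [prism]

lemma card_prism (d : ℕ) (S : Finset (EuclideanSpace ℝ (Fin d))) :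
    (prism d S).card = 2 * S.card := by
  classical
  unfold prism
  rw [Finset.card_union_of_disjoint, Finset.card_image_of_injective, Finset.card_image_of_injective]
  · ring
  · intro a b h; exact (lift_inj h).2
  · intro a b h; exact (lift_inj h).2
  · rw [Finset.disjoint_left]
    intro x hx hy
    simp only [Finset.mem_image] at hx hy
    obtain ⟨a, _, rfl⟩ := hx
    obtain ⟨b, _, h⟩ := hy
    have := (lift_inj h).1
    norm_num at this

lemma expose_prism (d : ℕ) (S : Finset (EuclideanSpace ℝ (Fin d)))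
    (h : ∀ x ∈ S, ∃ f : EuclideanSpace ℝ (Fin d) →ₗ[ℝ] ℝ, ∀ y ∈ S, y ≠ x → f y < f x) :
    ∀ x ∈ prism d S, ∃ f : EuclideanSpace ℝ (Fin (d + 1)) →ₗ[ℝ] ℝ,
      ∀ y ∈ prism d S, y ≠ x → f y < f x := by
  intro x hx
  have le : ∀ {v : EuclideanSpace ℝ (Fin d)} {f : EuclideanSpace ℝ (Fin d) →ₗ[ℝ] ℝ}
      (hf : ∀ y ∈ S, y ≠ v → f y < f v), ∀ y ∈ S, f y ≤ f v := by
    intro v f hf y hy
    by_cases hyv : y = v
    · rw [hyv]
    · exact (hf y hy hyv).le
  rcases mem_prism.1 hx with ⟨v, hv, rfl⟩ | ⟨v, hv, rfl⟩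
  · obtain ⟨f, hf⟩ := h v hv
    refine ⟨fl d f (-1), ?_⟩
    intro y hy hne
    rcases mem_prism.1 hy with ⟨u, hu, rfl⟩ | ⟨u, hu, rfl⟩
    · simp only [fl_lift]
      have : u ≠ v := fun e => hne (by rw [e])
      have := hf u hu this
      linarith
    · simp only [fl_lift]
      have := le hf u hu
      linarith
  · obtain ⟨f, hf⟩ := h v hv
    refine ⟨fl d f 1, ?_⟩
    intro y hy hne
    rcases mem_prism.1 hy with ⟨u, hu, rfl⟩ | ⟨u, hu, rfl⟩
    · simp only [fl_lift]
      have := le hf u hu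
      linarith
    · simp only [fl_lift]
      have : u ≠ v := fun e => hne (by rw [e])
      have := hf u hu this
      linarith

lemma pair_same (d : ℕ) (S : Finset (EuclideanSpace ℝ (Fin d)))
    (p : EuclideanSpace ℝ (Fin d) × EuclideanSpace ℝ (Fin d)) (hp : p ∈ pairs d S) (c : ℝ)
    (hc : c = 0 ∨ c = 1) : (lift d c p.1, lift d c p.2) ∈ pairs (d + 1) (prism d S) := by
  obtain ⟨h1, h2, h3, f, h4, h5⟩ := hp
  refine ⟨?_, ?_, ?_, fl d f 0, ?_, ?_⟩
  · rw [mem_prism]
    rcases hc with rfl | rfl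
    · exact Or.inl ⟨_, h1, rfl⟩
    · exact Or.inr ⟨_, h1, rfl⟩
  · rw [mem_prism]
    rcases hc with rfl | rfl
    · exact Or.inl ⟨_, h2, rfl⟩
    · exact Or.inr ⟨_, h2, rfl⟩
  · intro h; exact h3 (lift_inj h).2
  · simpa using h4
  · intro z hz
    rcases mem_prism.1 hz with ⟨u, hu, rfl⟩ | ⟨u, hu, rfl⟩
    · simpa using h5 u hu
    · simpa using h5 u hu

lemma pair_up (d : ℕ) (S : Finset (EuclideanSpace ℝ (Fin d)))
    (p : EuclideanSpace ℝ (Fin d) × EuclideanSpace ℝ (Fin d)) (h1 : p.1 ∈ S) (h2 : p.2 ∈ S) :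
    (lift d 0 p.1, lift d 1 p.2) ∈ pairs (d + 1) (prism d S) := by
  refine ⟨mem_prism.2 (Or.inl ⟨_, h1, rfl⟩), mem_prism.2 (Or.inr ⟨_, h2, rfl⟩), ?_,
    fl d 0 (-1), ?_, ?_⟩
  · intro h
    have := (lift_inj h).1
    norm_num at this
  · simp
  · intro z hz
    rcases mem_prism.1 hz with ⟨u, hu, rfl⟩ | ⟨u, hu, rfl⟩ <;> simp

lemma pair_down (d : ℕ) (S : Finset (EuclideanSpace ℝ (Fin d)))
    (p : EuclideanSpace ℝ (Fin d) × EuclideanSpace ℝ (Fin d)) (h1 : p.1 ∈ S) (h2 : p.2 ∈ S) :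
    (lift d 1 p.1, lift d 0 p.2) ∈ pairs (d + 1) (prism d S) := by
  refine ⟨mem_prism.2 (Or.inr ⟨_, h1, rfl⟩), mem_prism.2 (Or.inl ⟨_, h2, rfl⟩), ?_,
    fl d 0 1, ?_, ?_⟩
  · intro h
    have := (lift_inj h).1
    norm_num at this
  · simp
  · intro z hz
    rcases mem_prism.1 hz with ⟨u, hu, rfl⟩ | ⟨u, hu, rfl⟩ <;> simp

lemma pairs_finite (d : ℕ) (T : Finset (EuclideanSpace ℝ (Fin d))) : (pairs d T).Finite := by
  refine (Finset.finite_toSet (T ×ˢ T)).subset ?_
  rintro ⟨a, b⟩ ⟨h1, h2, _⟩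
  simp only [Finset.coe_product, Set.mem_prod, Finset.mem_coe]
  exact ⟨h1, h2⟩

/-- the prism has many antipodal pairs -/
lemma card_pairs_prism (d : ℕ) (S : Finset (EuclideanSpace ℝ (Fin d))) :
    2 * (pairs d S).ncard + 2 * S.card ^ 2 ≤ (pairs (d + 1) (prism d S)).ncard := by
  classical
  set f : Bool × Bool → EuclideanSpace ℝ (Fin d) × EuclideanSpace ℝ (Fin d) →
      EuclideanSpace ℝ (Fin (d + 1)) × EuclideanSpace ℝ (Fin (d + 1)) :=
    fun b p => (lift d (if b.1 then 1 else 0) p.1, lift d (if b.2 then 1 else 0) p.2) with hf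
  have finj : ∀ b, Function.Injective (f b) := by
    intro b p q h
    simp only [hf, Prod.mk.injEq] at h
    exact Prod.ext (lift_inj h.1).2 (lift_inj h.2).2
  have fdis : ∀ b b', b ≠ b' → ∀ p q, f b p ≠ f b' q := by
    intro b b' hb p q h
    simp only [hf, Prod.mk.injEq] at h
    have h1 := (lift_inj h.1).1
    have h2 := (lift_inj h.2).1
    apply hb
    obtain ⟨a1, a2⟩ := b
    obtain ⟨c1, c2⟩ := b'
    cases a1 <;> cases a2 <;> cases c1 <;> cases c2 <;> simp at h1 h2 ⊢
  set A : Set _ := f (false, false) '' (pairs d S) with hA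
  set B : Set _ := f (true, true) '' (pairs d S) with hB
  set C : Set _ := f (false, true) '' ((S ×ˢ S : Finset _) : Set _) with hC
  set D : Set _ := f (true, false) '' ((S ×ˢ S : Finset _) : Set _) with hD
  have hfin := pairs_finite d S
  have fA : A.Finite := hfin.image _
  have fB : B.Finite := hfin.image _
  have fC : C.Finite := (Finset.finite_toSet _).image _
  have fD : D.Finite := (Finset.finite_toSet _).image _
  have cA : A.ncard = (pairs d S).ncard := Set.ncard_image_of_injective _ (finj _)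
  have cB : B.ncard = (pairs d S).ncard := Set.ncard_image_of_injective _ (finj _)
  have cC : C.ncard = S.card ^ 2 := by
    rw [hC, Set.ncard_image_of_injective _ (finj _), Set.ncard_coe_finset, Finset.card_product, sq]
  have cD : D.ncard = S.card ^ 2 := by
    rw [hD, Set.ncard_image_of_injective _ (finj _), Set.ncard_coe_finset, Finset.card_product, sq]
  have dis : ∀ b b', b ≠ b' → ∀ X Y : Set (EuclideanSpace ℝ (Fin d) × EuclideanSpace ℝ (Fin d)),
      Disjoint (f b '' X) (f b' '' Y) := by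
    intro b b' hb X Y
    rw [Set.disjoint_left]
    rintro _ ⟨p, _, rfl⟩ ⟨q, _, h⟩
    exact fdis b b' hb p q h.symm
  have dAB : Disjoint A B := dis _ _ (by decide) _ _
  have dABC : Disjoint (A ∪ B) C := by
    rw [Set.disjoint_union_left]
    exact ⟨dis _ _ (by decide) _ _, dis _ _ (by decide) _ _⟩
  have dABCD : Disjoint (A ∪ B ∪ C) D := by
    rw [Set.disjoint_union_left, Set.disjoint_union_left]
    exact ⟨⟨dis _ _ (by decide) _ _, dis _ _ (by decide) _ _⟩, dis _ _ (by decide) _ _⟩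
  have tot : (A ∪ B ∪ C ∪ D).ncard = 2 * (pairs d S).ncard + 2 * S.card ^ 2 := by
    rw [Set.ncard_union_eq dABCD ((fA.union fB).union fC) fD,
      Set.ncard_union_eq dABC (fA.union fB) fC, Set.ncard_union_eq dAB fA fB, cA, cB, cC, cD]
    ring
  rw [← tot]
  refine Set.ncard_le_ncard ?_ (pairs_finite _ _)
  rintro x (((⟨p, hp, rfl⟩ | ⟨p, hp, rfl⟩) | ⟨p, hp, rfl⟩) | ⟨p, hp, rfl⟩)
  · simpa [hf] using pair_same d S p hp 0 (Or.inl rfl)
  · simpa [hf] using pair_same d S p hp 1 (Or.inr rfl)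
  · simp only [Finset.coe_product, Set.mem_prod, Finset.mem_coe] at hp
    simpa [hf] using pair_up d S p hp.1 hp.2
  · simp only [Finset.coe_product, Set.mem_prod, Finset.mem_coe] at hp
    simpa [hf] using pair_down d S p hp.1 hp.2

/-- the prism spans -/
lemma span_prism (d : ℕ) (S : Finset (EuclideanSpace ℝ (Fin d)))
    (h : affineSpan ℝ (S : Set (EuclideanSpace ℝ (Fin d))) = ⊤) :
    affineSpan ℝ (prism d S : Set (EuclideanSpace ℝ (Fin (d + 1)))) = ⊤ := by
  set W := affineSpan ℝ (prism d S : Set (EuclideanSpace ℝ (Fin (d + 1)))) with hW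
  have key : ∀ c : ℝ, (c = 0 ∨ c = 1) → ∀ v, lift d c v ∈ W := by
    intro c hc v
    let L : EuclideanSpace ℝ (Fin d) →ᵃ[ℝ] EuclideanSpace ℝ (Fin (d + 1)) :=
      { toFun := lift d c
        linear :=
          { toFun := lift d 0
            map_add' := by
              intro x y; ext i
              refine Fin.lastCases ?_ (fun j => ?_) i <;> simp
            map_smul' := by
              intro r x; ext i
              refine Fin.lastCases ?_ (fun j => ?_) i <;> simp }
        map_vadd' := by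
          intro p w; ext i
          refine Fin.lastCases ?_ (fun j => ?_) i <;> simp }
    have hle : affineSpan ℝ (S : Set (EuclideanSpace ℝ (Fin d))) ≤ W.comap L := by
      rw [affineSpan_le]
      intro x hx
      rw [AffineSubspace.coe_comap, Set.mem_preimage]
      apply subset_affineSpan
      show lift d c x ∈ (prism d S : Set _)
      rw [Finset.mem_coe, mem_prism]
      rcases hc with rfl | rfl
      · exact Or.inl ⟨x, hx, rfl⟩
      · exact Or.inr ⟨x, hx, rfl⟩
    rw [h] at hle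
    have := hle (AffineSubspace.mem_top ℝ _ v)
    rwa [AffineSubspace.mem_comap] at this
  rw [eq_top_iff]
  intro w _
  have h0 := key 0 (Or.inl rfl) (proj d w)
  have h1 := key 1 (Or.inr rfl) (proj d w)
  have := AffineMap.lineMap_mem (w (Fin.last d)) h0 h1
  convert this using 1
  ext i
  refine Fin.lastCases ?_ (fun j => ?_) i
  · simp [AffineMap.lineMap_apply]
  · simp [AffineMap.lineMap_apply, proj]

end Pool.Agent.Helper425.AV
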